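import Mathlib
import Pool.Agent.Q281.MG.TutteEq

set_option autoImplicit false

/-!
# 3-connectivity is not determined by the Tutte polynomial (MP_f03b0a_co, Q2)
-/

namespace Pool.Agent.Results.MP_f03b0a_co.ThreeConnectivity

open Pool.Agent.Q281.MG

/-- The graph obtained from `G` by deleting the vertices in `X` is connected: any two vertices
outside `X` are joined by a walk outside `X`. -/
def ConnOff {V E : Type} (G : MGraph V E) (X : Finset V) : Prop :=
  ∀ a ∉ X, ∀ b ∉ X, Relation.EqvGen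
    (fun x y => x ∉ X ∧ y ∉ X ∧ ∃ e, G.src e = x ∧ G.dst e = y) a b

/-- `G` is 3-connected: at least 4 vertices, and connected after deleting any set of at most
2 vertices. -/
def ThreeConn {V E : Type} [Fintype V] (G : MGraph V E) : Prop :=
  4 ≤ Fintype.card V ∧ ∀ X : Finset V, X.card ≤ 2 → ConnOff G X

/-- The 3-connected graph. -/
def GG : MGraph (Fin 6) (Fin 13) where
  src := ![0, 0, 0, 1, 1, 1, 1, 2, 2, 2, 3, 3, 4]
  dst := ![2, 3, 5, 3, 4, 5, 5, 4, 4, 5, 4, 5, 5]

/-- The graph that is not 3-connected. -/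
def HH : MGraph (Fin 6) (Fin 13) where
  src := ![0, 0, 0, 1, 1, 1, 1, 2, 2, 3, 3, 3, 4]
  dst := ![2, 5, 5, 2, 3, 4, 5, 3, 4, 4, 4, 5, 5]

theorem listG : (List.finRange 13).map (pr GG) =
    [(0,2),(0,3),(0,5),(1,3),(1,4),(1,5),(1,5),(2,4),(2,4),(2,5),(3,4),(3,5),(4,5)] := by
  decide +kernel

theorem listH : (List.finRange 13).map (pr HH) =
    [(0,2),(0,5),(0,5),(1,2),(1,3),(1,4),(1,5),(2,3),(2,4),(3,4),(3,4),(3,5),(4,5)] := by
  decide +kernel

theorem range6 : List.range 6 = [0, 1, 2, 3, 4, 5] := by decide +kernel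

theorem key : go leafT
      [(0,2),(0,3),(0,5),(1,3),(1,4),(1,5),(1,5),(2,4),(2,4),(2,5),(3,4),(3,5),(4,5)]
      [0, 1, 2, 3, 4, 5] [] =
    go leafT
      [(0,2),(0,5),(0,5),(1,2),(1,3),(1,4),(1,5),(2,3),(2,4),(3,4),(3,4),(3,5),(4,5)]
      [0, 1, 2, 3, 4, 5] [] := by
  decide +kernel

theorem comps_G : GG.comps Finset.univ = 1 := by
  rw [comps_univ, listG, range6]
  decide +kernel

theorem comps_H : HH.comps Finset.univ = 1 := by
  rw [comps_univ, listH, range6]
  decide +kernel

theorem tutte_GH : GG.tutte = HH.tutte := by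
  apply tutte_eq_of
  · rw [comps_G, comps_H]
  · rw [listG, listH, range6]
    exact key

/-- labels of the vertices after merging along the edges avoiding `X` -/
def labs (G : MGraph (Fin 6) (Fin 13)) (X : Finset (Fin 6)) : List ℕ :=
  allM (((List.finRange 13).filter (fun e => G.src e ∉ X ∧ G.dst e ∉ X)).map (pr G))
    (List.range 6)

theorem connOff_of (G : MGraph (Fin 6) (Fin 13)) (X : Finset (Fin 6))
    (h : ∀ a b : Fin 6, a ∉ X → b ∉ X → (labs G X).getD a 0 = (labs G X).getD b 0) :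
    ConnOff G X := by
  intro a ha b hb
  have hf := faithful_allM G ((List.finRange 13).filter (fun e => G.src e ∉ X ∧ G.dst e ∉ X)) ∅
    (List.range 6) (faithful_range G)
  have h1 := (hf.iff a b).1 (h a b ha hb)
  refine Relation.EqvGen.mono ?_ _ _ h1
  rintro x y ⟨e, he, h2, h3⟩
  rw [Finset.union_empty, List.mem_toFinset, List.mem_filter, decide_eq_true_eq] at he
  exact ⟨h2 ▸ he.2.1, h3 ▸ he.2.2, e, h2, h3⟩

theorem three_G : ThreeConn GG := by
  refine ⟨by simp, fun X hX => connOff_of GG X ?_⟩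
  have h : ∀ X : Finset (Fin 6), X.card ≤ 2 → ∀ a b : Fin 6, a ∉ X → b ∉ X →
      (labs GG X).getD a 0 = (labs GG X).getD b 0 := by
    decide +kernel
  exact h X hX

theorem not_three_H : ¬ ThreeConn HH := by
  rintro ⟨_, h⟩
  have h1 := h {2, 5} (by decide) 0 (by decide) 1 (by decide)
  have h2 : ∀ x y : Fin 6, Relation.EqvGen
      (fun x y => x ∉ ({2, 5} : Finset (Fin 6)) ∧ y ∉ ({2, 5} : Finset (Fin 6)) ∧
        ∃ e, HH.src e = x ∧ HH.dst e = y) x y → (x = 0 ↔ y = 0) := by
    intro x y hxy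
    induction hxy with
    | rel x y h3 =>
      obtain ⟨h4, h5, e, rfl, rfl⟩ := h3
      revert e
      decide +kernel
    | refl x => exact Iff.rfl
    | symm x y _ ih => exact ih.symm
    | trans x y z _ _ ih1 ih2 => exact ih1.trans ih2
  exact absurd ((h2 0 1 h1).1 rfl) (by decide)

/-- There are two connected graphs with the same Tutte polynomial, one 3-connected and the
other not. -/
theorem result : ∃ (n m : ℕ) (G H : MGraph (Fin n) (Fin m)),
    G.comps Finset.univ = 1 ∧ H.comps Finset.univ = 1 ∧ G.tutte = H.tutte ∧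
      ThreeConn G ∧ ¬ ThreeConn H :=
  ⟨6, 13, GG, HH, comps_G, comps_H, tutte_GH, three_G, not_three_H⟩

end Pool.Agent.Results.MP_f03b0a_co.ThreeConnectivity
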